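import Mathlib
import Pool.Agent.Helper26.Slender
import Pool.Agent.Helper26.LocSet

set_option autoImplicit false

namespace Pool.Agent.Results.MP_faf39c_gt.SeparableMax

open Pool.Agent

/-- A functorial topology: a choice of a group topology on every abelian group such that all
homomorphisms are continuous. -/
structure IsFunctorialTopology (T : (G : Type) → [AddCommGroup G] → TopologicalSpace G) : Prop where
  isTopologicalAddGroup : ∀ (G : Type) [AddCommGroup G], @IsTopologicalAddGroup G (T G) _
  continuous_hom : ∀ (G H : Type) [AddCommGroup G] [AddCommGroup H] (f : G →+ H),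
    @Continuous G H (T G) (T H) f

/-- The density of a topological space: the least cardinality of a dense subset. -/
noncomputable def density (X : Type) (t : TopologicalSpace X) : Cardinal :=
  sInf {c | ∃ D : Set X, @Dense X t D ∧ Cardinal.mk D = c}

/-- There is a functorial topology `T` and an infinite abelian group `G` with `(G, T_G)` Hausdorff,
of density `ℵ₀` and of the largest possible cardinality `2 ^ (2 ^ density)`. -/
theorem result :
    ∃ T : (G : Type) → [AddCommGroup G] → TopologicalSpace G,
      IsFunctorialTopology T ∧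
      ∃ (G : Type) (_ : AddCommGroup G), Infinite G ∧ @T2Space G (T G) ∧
        density G (T G) = Cardinal.aleph0 ∧
        Cardinal.mk G = 2 ^ (2 ^ density G (T G) : Cardinal) := by
  have hfun : IsFunctorialTopology (fun G _ => Helper26.dualTop G) := by
    constructor
    · intro G _
      apply topologicalAddGroup_iInf
      intro f
      let : TopologicalSpace ℤ := ⊥
      have : DiscreteTopology ℤ := ⟨rfl⟩
      exact topologicalAddGroup_induced f
    · intro G H _ _ f
      apply continuous_iInf_rng.mpr
      intro g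
      apply continuous_induced_rng.mpr
      have : @Continuous G ℤ (Helper26.dualTop G) ⊥ ((g.comp f : G →+ ℤ) : G → ℤ) := by
        apply continuous_iInf_dom (i := g.comp f)
        exact continuous_induced_dom
      exact this
  have hT2 : @T2Space ((ℕ → Bool) → ℤ) (Helper26.dualTop _) := by
    refine @T2Space.mk _ (Helper26.dualTop _) ?_
    intro x y hxy
    obtain ⟨i, hi⟩ := Function.ne_iff.mp hxy
    let ev : ((ℕ → Bool) → ℤ) →+ ℤ := Pi.evalAddMonoidHom (fun _ : ℕ → Bool => ℤ) i
    have hc : @Continuous ((ℕ → Bool) → ℤ) ℤ (Helper26.dualTop ((ℕ → Bool) → ℤ)) ⊥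
        (ev : ((ℕ → Bool) → ℤ) → ℤ) := by
      apply continuous_iInf_dom (i := ev)
      exact continuous_induced_dom
    let := Helper26.dualTop ((ℕ → Bool) → ℤ)
    let : TopologicalSpace ℤ := ⊥
    have : DiscreteTopology ℤ := ⟨rfl⟩
    refine ⟨ev ⁻¹' {x i}, ev ⁻¹' {y i}, ?_, ?_, rfl, rfl, ?_⟩
    · exact (isOpen_discrete _).preimage hc
    · exact (isOpen_discrete _).preimage hc
    · rw [Set.disjoint_left]
      intro z hz hz'
      apply hi
      have h1 : ev z = x i := hz
      have h2 : ev z = y i := hz'
      rw [← h1, ← h2]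
  have hdense : @Dense ((ℕ → Bool) → ℤ) (Helper26.dualTop _) Helper26.locSet := by
    classical
    intro x
    let := Helper26.dualTop ((ℕ → Bool) → ℤ)
    rw [mem_closure_iff_nhds]
    intro U hU
    have hnhds : nhds x = ⨅ f : ((ℕ → Bool) → ℤ) →+ ℤ,
        @nhds _ (TopologicalSpace.induced f ⊥) x := nhds_iInf
    rw [hnhds, Filter.mem_iInf] at hU
    obtain ⟨s, hsfin, V, hV, rfl⟩ := hU
    choose F hF using Helper26.los_cantor
    obtain ⟨d, hd, hdF⟩ := Helper26.locSet_interp (hsfin.toFinset.biUnion F) x
    refine ⟨d, ?_, hd⟩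
    rw [Set.mem_iInter]
    intro f
    have hVf := hV f
    rw [nhds_induced] at hVf
    obtain ⟨W, hW, hWV⟩ := Filter.mem_comap.mp hVf
    apply hWV
    have hfd : (f : ((ℕ → Bool) → ℤ) →+ ℤ) (d - x) = 0 := by
      apply hF
      intro i hi
      rw [Pi.sub_apply, sub_eq_zero]
      apply hdF
      rw [Finset.mem_biUnion]
      exact ⟨f, hsfin.mem_toFinset.mpr f.2, hi⟩
    have hfd' : (f : ((ℕ → Bool) → ℤ) →+ ℤ) d = (f : ((ℕ → Bool) → ℤ) →+ ℤ) x := by
      rw [map_sub] at hfd
      exact sub_eq_zero.mp hfd
    show (f : ((ℕ → Bool) → ℤ) →+ ℤ) d ∈ W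
    rw [hfd']
    exact mem_of_mem_nhds hW
  have hdens : density ((ℕ → Bool) → ℤ) (Helper26.dualTop _) = Cardinal.aleph0 := by
    apply le_antisymm
    · refine le_trans (csInf_le' ⟨Helper26.locSet, hdense, rfl⟩) ?_
      exact Cardinal.mk_le_aleph0_iff.mpr Helper26.locSet_countable
    · refine le_csInf ⟨Cardinal.mk Helper26.locSet, Helper26.locSet, hdense, rfl⟩ ?_
      rintro c ⟨D, hD, rfl⟩
      rw [Cardinal.aleph0_le_mk_iff, Set.infinite_coe_iff]
      intro hfin
      let := Helper26.dualTop ((ℕ → Bool) → ℤ)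
      have := hfin.isClosed.closure_eq
      rw [hD.closure_eq] at this
      rw [← this] at hfin
      exact Set.infinite_univ hfin
  refine ⟨fun G _ => Helper26.dualTop G, hfun, (ℕ → Bool) → ℤ, inferInstance, inferInstance, hT2,
    hdens, ?_⟩
  rw [hdens]
  have hc : Cardinal.aleph0 ≤ Cardinal.continuum.{0} := Cardinal.aleph0_le_continuum
  have h1 : Cardinal.aleph0.{0} ^ Cardinal.continuum.{0} = 2 ^ Cardinal.continuum.{0} :=
    Cardinal.power_eq_two_power hc (Cardinal.natCast_lt_aleph0).le hc
  simp [h1]

end Pool.Agent.Results.MP_faf39c_gt.SeparableMax
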